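import Pool.Agent.W969.MC.Cnt2

/-!
Approximate model counting by randomised monotone real circuits with few non-monotone gates: size
`exp (n ^ (r/(r+1) - ε))`, even for the factor `2 ^ (n ^ (r/(r+1) - ε))`.

The formulas are `r`-CNFs in `n` variables all of whose clauses have `r` negative literals (up to
renaming, monotone `r`-CNFs; for `r = 2` the models are the independent sets of a graph). They are
always satisfiable. The input tells for each clause whether it is absent; the number of models is a
monotone function of these bits. A real circuit computes with real numbers; its monotone gates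
compute arbitrary nondecreasing real functions of two arguments, so numbers of models can be added,
multiplied and compared at unit cost; and there may also be some arbitrary further gates, for
instance up to `δ log n` NOT gates. A randomised circuit is a finite nonempty family of circuits
from which one is chosen uniformly at random. The theorem says that a randomised circuit whose
output is, for every formula, with probability at least `1/2 + n ^ (-δ)` at least the number of
models and at most `2 ^ (n ^ (r/(r+1) - ε))` times this number, has size at least
`exp (n ^ (r/(r+1) - ε))`. (The constant `2 ^ n` approximates the number of models up to the factor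
`2 ^ n`, and `2 ^ n` times a polynomial many gates suffice to compute it.)

The proof: an average case version with a gap of the approximation method, for a constraint
satisfaction problem on a sparse expanding hypergraph. A monotone real circuit of size `s` cannot
tell planted instances from random ones with an advantage larger than `O(1/q + s (2/q) ^ j)`, where
`q` is the size of the alphabet and `j` is proportional to the number of variables, although in the
random instances no assignment satisfies more than half of the `M` constraints. Each constraint is
divided into `r` parts; there are `O(r log n)` variables of the formula for each part and each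
assignment of its values, and all the variables of compatible assignments can be true at the same
time; so the number of models is at least `2 ^ (c r M log n)` for planted instances, and at most
`2 ^ (c (r - 1/4) M log n)` for random ones. For the non-monotone gates one puts `n ^ δ'` such
instances into one formula, and fills them one after the other with random instances.
-/

namespace Pool.Agent.Results.MP_4ed1f9_lc.ApproximateMonotone

/-- A real circuit with the input bits `Inp` and the gates `0, ..., s - 1`. Gate `i` has `w i`
inputs, namely `a i j`, each an input bit (`0` or `1`) or an earlier gate, and its value on the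
input `x` is `val x i`. The gates outside `T` compute nondecreasing functions of at most two real
numbers. The output of a gate `i` in `T` depends in an arbitrary way on the bits that tell whether
`θ i j` is at most the `j`-th input (a NOT gate, for instance). -/
structure RealCircuit (Inp : Type) where
  s : ℕ
  T : Finset (Fin s)
  w : Fin s → ℕ
  a : (i : Fin s) → Fin (w i) → Inp ⊕ Fin s
  op : (i : Fin s) → (Fin (w i) → ℝ) → ℝ
  θ : (i : Fin s) → Fin (w i) → ℝ
  val : (Inp → Bool) → Fin s → ℝ
  out : Fin s
  earlier : ∀ i j k, a i j = Sum.inr k → k < i
  mono : ∀ i ∉ T, w i ≤ 2 ∧ Monotone (op i)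
  free : ∀ i ∈ T, ∀ z z' : Fin (w i) → ℝ, (∀ j, θ i j ≤ z j ↔ θ i j ≤ z' j) → op i z = op i z'
  spec : ∀ x i, val x i = op i (fun j =>
    Sum.elim (fun p => if x p = true then (1 : ℝ) else 0) (val x) (a i j))

/-- The output: the value of the gate `out`. -/
def RealCircuit.output {Inp : Type} (C : RealCircuit Inp) (x : Inp → Bool) : ℝ := C.val x C.out

/-- The size: the number of gates plus the number of inputs of the gates in `T`. -/
def RealCircuit.size {Inp : Type} (C : RealCircuit Inp) : ℕ := C.s + ∑ i ∈ C.T, C.w i

/-- The product of the numbers `w i + 1` over the gates in `T`. It is `1` if `T` is empty and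
`2 ^ t` if `T` consists of `t` NOT gates. -/
def RealCircuit.freedom {Inp : Type} (C : RealCircuit Inp) : ℕ := ∏ i ∈ C.T, (C.w i + 1)

/-- The clauses: the clause `e` says that not all of the `r` variables in `e` are true. -/
abbrev Clause (n r : ℕ) : Type := {e : Finset (Fin n) // e.card = r}

/-- The number of satisfying assignments of the formula that consists of all the clauses `e` with
`x e = false` (`x e = true` says that the clause `e` is absent). -/
noncomputable def numModels (n r : ℕ) (x : Clause n r → Bool) : ℕ :=
  Nat.card {α : Fin n → Bool // ∀ e : Clause n r, x e = false → ∃ v ∈ e.1, α v = false}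

lemma numModels_eq (n r : ℕ) (x : Clause n r → Bool) :
    numModels n r x = Pool.Agent.W969.MC.numClq n r x := by
  classical
  unfold numModels Pool.Agent.W969.MC.numClq
  rw [← Nat.card_coe_set_eq]
  refine Nat.card_congr ⟨fun α => ⟨Finset.univ.filter (fun v => α.1 v = true), ?_⟩,
    fun S => ⟨fun v => decide (v ∈ S.1), ?_⟩, ?_, ?_⟩
  · intro e he
    rcases hx : x e with _ | _
    · obtain ⟨v, hv, hα⟩ := α.2 e hx
      have := (Finset.mem_filter.mp (he hv)).2
      rw [hα] at this
      exact absurd this (by simp)
    · rfl
  · intro e he
    by_contra hcon
    push Not at hcon
    have hsub : e.1 ⊆ S.1 := by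
      intro v hv
      by_contra hvS
      exact hcon v hv (decide_eq_false hvS)
    have := S.2 e hsub
    rw [he] at this
    exact Bool.noConfusion this
  · intro α
    apply Subtype.ext
    funext v
    simp
  · intro S
    apply Subtype.ext
    ext v
    simp

/-- For every `r ≥ 2` and `ε > 0` there is `δ > 0` such that for all large `n` the following holds.
If, for every formula, with probability at least `1/2 + n ^ (-δ)`, the output of a random member of
a finite nonempty family of real circuits is at least the number of models and at most
`2 ^ (n ^ (r / (r + 1) - ε))` times this number, and the number `freedom` of the members is at most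
`n ^ δ`, then some member has size at least `exp (n ^ (r / (r + 1) - ε))`. -/
theorem result (r : ℕ) (ε : ℝ) (hr : 2 ≤ r) (hε : 0 < ε) :
    ∃ δ : ℝ, 0 < δ ∧ ∃ n0 : ℕ, ∀ n : ℕ, n0 ≤ n → ∀ (R : Type) [Finite R] [Nonempty R]
      (C : R → RealCircuit (Clause n r)),
      (∀ x, 1 / 2 + (n : ℝ) ^ (-δ) ≤ (Nat.card {ρ : R // (numModels n r x : ℝ) ≤ (C ρ).output x ∧
        (C ρ).output x ≤ 2 ^ ((n : ℝ) ^ ((r : ℝ) / (r + 1) - ε)) * (numModels n r x : ℝ)} : ℝ) /
          Nat.card R) →
      (∀ ρ, ((C ρ).freedom : ℝ) ≤ (n : ℝ) ^ δ) →
      ∃ ρ, Real.exp ((n : ℝ) ^ ((r : ℝ) / (r + 1) - ε)) ≤ ((C ρ).size : ℝ) := by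
  obtain ⟨δ, hδ, n0, H⟩ := Pool.Agent.W969.MC.count_rand r hr ε hε
  refine ⟨δ, hδ, n0, ?_⟩
  intro n hn R _ _ C h1 h2
  let _ : Fintype R := Fintype.ofFinite R
  have hR : (0 : ℝ) < Fintype.card R := by exact_mod_cast Fintype.card_pos
  refine H n hn R (fun ρ => ⟨(C ρ).s, (C ρ).T, (C ρ).w, (C ρ).a, (C ρ).op, (C ρ).θ, (C ρ).val,
      (C ρ).out, 0, (C ρ).earlier, (C ρ).mono, (C ρ).free, (C ρ).spec⟩) ?_ h2
  intro x
  have h3 := h1 x
  rw [Nat.card_eq_fintype_card (α := R), le_div_iff₀ hR] at h3
  refine h3.trans (le_of_eq ?_)
  rw [numModels_eq]
  rfl

end Pool.Agent.Results.MP_4ed1f9_lc.ApproximateMonotone
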