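import Pool.Agent.W894.HT.Fin5

/-!
# Hamiltonian paths and cycles of tournaments, exactly and modulo m

For a tournament let `h` and `c` be the numbers of its Hamiltonian paths and Hamiltonian cycles.
Computing `h` and computing `c` are complete for `#P`, so satisfying assignments of CNF formulas
can be counted in polynomial time if and only if `h` can, and if and only if `c` can. For every
`m` the complexity of computing `h` and `c` modulo `m` is determined: `h` modulo `m` is computable
in polynomial time if and only if `Mod_p P` is contained in `P` for all prime divisors `p` of `m`,
where `p = 2` counts only if `4` divides `m` (`h` is odd by Redei's theorem), and `c` modulo `m`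
if and only if `Mod_p P` is contained in `P` for all prime divisors `p` of `m`.

Outline. For the tournament obtained from the order `1 < 2 < ... < n` by reversing the pairs in a
set `F`, the number of Hamiltonian paths is a signed sum over the words in which every step is
either ascending or a step of `F`. An untouched vertex multiplies the weight of a word by the
number of ascending steps that cover it. If each vertex touched by `F` is preceded by two untouched
ones, these act modulo `4` as a parity filter, and eliminating the vertices from the top gives
`1 + 2 P` where `P` counts the paths between two given vertices in the graph `F`. For an odd prime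
`p` each vertex is replaced by a block of `p` or `p + 1` vertices such that the sums over the
block alone vanish suitably modulo `p`; then the number is `a + 2 b P'` with a signed path sum
`P'`, in which subdivided edges carry the signs. Signed path sums equal the number of satisfying
assignments of a formula exactly, by switching gadgets in which unwanted paths cancel. A formula
for the exact count follows from tournaments in which vertices are replaced by long transitive
tournaments.
-/

set_option autoImplicit false

namespace Pool.Agent.Results.MP_4ed1f9_lc.HamiltonianPathsOfTournaments

open Pool.Agent.NPC Pool.Agent.NPC.Cnt Pool.Agent.W894.HamTour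
open Pool.Agent.H579R2.Spt (InRP)

theorem result :
    (SharpPComplete (strFn (onTournaments hamPaths)) ∧
      SharpPComplete (strFn (onTournaments hamCycles)) ∧
      ((∀ k : List Bool → ℕ, SharpP k → FP k) ↔ Easy hamPaths) ∧
      ((∀ k : List Bool → ℕ, SharpP k → FP k) ↔ Easy hamCycles)) ∧
    (∀ m : ℕ, 0 < m → (Easy (fun A => hamPaths A % m) ↔
      ∀ p : ℕ, p.Prime → p ∣ m → (p = 2 → 4 ∣ m) →
        ∀ L, InMod p L → Pool.Agent.W894.HamTour.InP L)) ∧
    (∀ m : ℕ, 0 < m → (Easy (fun A => hamCycles A % m) ↔
      ∀ p : ℕ, p.Prime → p ∣ m → ∀ L, InMod p L → Pool.Agent.W894.HamTour.InP L)) ∧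
    ModComplete 2 (lang fun A : List (List Bool) => IsTournament A ∧ hamPaths A % 4 = 3) ∧
    (∀ p : ℕ, p.Prime → p ≠ 2 →
      ModComplete p (lang fun A : List (List Bool) => IsTournament A ∧ hamPaths A % p ≠ 1)) ∧
    (∀ p : ℕ, p.Prime →
      ModComplete p (lang fun A : List (List Bool) => IsTournament A ∧ hamCycles A % p ≠ 0)) ∧
    (∀ m : ℕ, 3 ≤ m → Easy (fun A => hamPaths A % m) → ∀ L, InNP L → InRP L) ∧
    (∀ m : ℕ, 2 ≤ m → Easy (fun A => hamCycles A % m) → ∀ L, InNP L → InRP L) :=
  Pool.Agent.W894.HT.final Pool.Agent.W894.HT.nlucas Pool.Agent.W894.HT.nfwd
    Pool.Agent.W215.HNRp.main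

end Pool.Agent.Results.MP_4ed1f9_lc.HamiltonianPathsOfTournaments
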