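import Mathlib
import Pool.Agent.H592R3.Defs
import Pool.Agent.W964.Pram.Machine
import Pool.Agent.W964.Pram.RandMachine
import Pool.Agent.W964.Pram.CntDefs
import Pool.Agent.W964.Pram.CntFinal

/-!
A theorem of the type of the theorem of Rice for the counting of satisfying assignments with ideal
parallel random access machines (priority concurrent writing, concurrent searching of lists of
cells, arbitrary instruction set, unbounded words, unbounded memory, different programs for
different processors): no predicate of the number of satisfying assignments of a CNF formula with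
`n` variables that is not constant on `0, ..., 2 ^ (n - 1)` can be computed in `o (n / log n)`
steps with `2 ^ ((1 - ε) n)` processors, not even on average.
-/

set_option autoImplicit false

open SmallDepth Finset Filter Pool.Agent.W964.Pram

namespace Pool.Agent.Results.MP_4ed1f9_lc.ParallelPredicates

open Classical in
/-- 1. For every `ε > 0` and `K` there is `C > 0` such that for `n ≥ 2` variables, `T ≥ 1` steps,
`C T log n ≤ w ≤ n`, `M ≥ n 2 ^ w` clauses and `a < 2 ^ (n - 1)` there are two probability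
distributions on CNF formulas in which all `n` variables occur, `ν₀` on formulas with exactly `a`
satisfying assignments and `ν₁` on formulas with exactly `a + 1`, such that every parallel machine
with at most `2 ^ ((1 - ε) n)` processors and lists of length at most `2 ^ (K n)` has after `T`
steps advantage at most `2 ^ (-w / C)` in telling `ν₀` from `ν₁`, and computes a predicate `F` of
the number of satisfying assignments with `F a` not equivalent to `F (a + 1)` on the mixture
`(ν₀ + ν₁) / 2` with probability at most `1 / 2 + 2 ^ (-w / C)`.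

2. For `0 < δ < 2`, every `K` and every number of steps `T n = o (n / log n)` there is a number of
clauses `M n ≤ n ^ O(T n) = 2 ^ o(n)` such that for all large `n` and every predicate `F` of the
number of satisfying assignments that is not constant on `0, ..., 2 ^ (n - 1)`, randomized
parallel machines with at most `(2 - δ) ^ n` times a polynomial in `M n` processors and lists of
length at most `2 ^ (K n)` do not compute `F` in `T n` steps with error probability at most `1 / 3`
for all CNF formulas with `n` variables, all of which occur, and `M n` clauses. -/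
theorem result :
    (∀ (ε : ℝ) (K : ℕ), 0 < ε → ∃ C : ℝ, 0 < C ∧
      ∀ n T w M a : ℕ, 2 ≤ n → 1 ≤ T → C * (T * Real.log n) ≤ w → w ≤ n → n * 2 ^ w ≤ M →
      a < 2 ^ (n - 1) →
      ∃ ν₀ ν₁ : ((Fin M × Fin n × Bool) → Bool) → ℝ,
        ((∀ x, 0 ≤ ν₀ x) ∧ ∑ x, ν₀ x = 1) ∧ ((∀ x, 0 ≤ ν₁ x) ∧ ∑ x, ν₁ x = 1) ∧
        (∀ x, ν₀ x ≠ 0 → AllOccur x ∧ numModels x = a) ∧
        (∀ x, ν₁ x ≠ 0 → AllOccur x ∧ numModels x = a + 1) ∧
        ∀ (P : ℕ) (A : Machine (Fin M × Fin n × Bool) P), (P : ℝ) ≤ 2 ^ ((1 - ε) * n) →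
          A.Lists (2 ^ (K * n)) →
          |(∑ x, ν₀ x * (if A.answer T x = true then 1 else 0)) -
            ∑ x, ν₁ x * (if A.answer T x = true then 1 else 0)| ≤ (2 : ℝ) ^ (-((w : ℝ) / C)) ∧
          ∀ F : ℕ → Prop, ¬ (F a ↔ F (a + 1)) →
            ∑ x, (ν₀ x + ν₁ x) / 2 *
              (if (A.answer T x = true ↔ F (numModels x)) then 1 else 0) ≤
              1 / 2 + (2 : ℝ) ^ (-((w : ℝ) / C))) ∧
    (∀ (δ : ℝ) (K : ℕ), 0 < δ → δ < 2 → ∀ T : ℕ → ℕ, (∀ n, 1 ≤ T n) →
      (fun n : ℕ => (T n : ℝ) * Real.log n) =o[atTop] (fun n : ℕ => (n : ℝ)) →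
      ∃ M : ℕ → ℕ, (∃ C : ℝ, ∀ n, 2 ≤ n → (M n : ℝ) ≤ (n : ℝ) ^ (C * T n)) ∧
        ∀ c e : ℕ, ∀ᶠ n : ℕ in atTop,
          ∀ F : ℕ → Prop, (∃ a ≤ 2 ^ (n - 1), ∃ b ≤ 2 ^ (n - 1), F a ∧ ¬ F b) →
          ∀ (P : ℕ) (R : RandMachine (Fin (M n) × Fin n × Bool) P),
          (P : ℝ) ≤ (2 - δ) ^ n * (c * (M n : ℝ) ^ e) → R.Lists (2 ^ (K * n)) →
          ∃ x, AllOccur x ∧ R.success (T n) x (F (numModels x)) < 2 / 3) := by
  refine ⟨fun ε K hε => ?_, fun δ K hδ hδ2 T hT hTo => cnt_q1 δ hδ hδ2 K T hT hTo⟩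
  obtain ⟨C, hC, H⟩ := cnt_average ε hε K
  refine ⟨C, hC, ?_⟩
  intro n T w M a hn hT hw hwn hM ha
  obtain ⟨ν₀, ν₁, h0, h1, h2, h3, h4⟩ := H n T w M a hn hT hw hwn hM ha
  exact ⟨ν₀, ν₁, h0, h1, h2, h3, h4⟩

end Pool.Agent.Results.MP_4ed1f9_lc.ParallelPredicates
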