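import Pool.Agent.W901.NU.PPc

/-!
# `#P ⊆ FP` and the prediction of answers: a square-root law

Polynomial time is Mathlib's `Turing.TM2ComputableInPolyTime`, for functions on bit strings.
`SharpP` is the class `#P`, `FP` the class of the functions with values in `ℕ`, written in binary,
which are computable in polynomial time; `InPPclass` is the class `PP` (more than half of the
certificates are accepted) and `PPHard` is hardness for `PP` under polynomial-time many-one
reductions.

A set `A` is `(δ, ε)`-predictable if there are an oracle `X` (an arbitrary set) and a polynomial-time
algorithm, asking `X` at most `O(log n)` questions, which computes for every list of `m` questions of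
length at most `m ^ ε` about membership in `A` predictions for a nonempty subset of `s` of them (it
may abstain on all the others) such that the number of right predictions and the number of wrong
predictions differ by at least `m ^ δ * √ s`.  It is fully `δ`-predictable if this holds for all lists
of questions, of any length, with predictions for all questions.

The theorem. For `ε > 0` and `0 < δ ≤ 1 / 2` the following are equivalent: `#P ⊆ FP`; `PP ⊆ P`; some
`PP`-hard set is `(δ, ε)`-predictable; every set in `PP` is fully `δ`-predictable. For `δ ≤ 0` every
set whatsoever is fully `δ`-predictable.

Proof. Let `A` be `PP`-hard and predictable. Then it is `NP`-hard and `P = NP`, by the square-root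
law for `NP`. The questions whether there are at least `k` accepted certificates of `x` with the prefix
`u` reduce to `A`. Online learning (weighted vote of the prediction vectors with adaptive learning
rate) and boosting give an advice string of polynomial length from which all these questions are
answered in polynomial time; binary search gives the numbers. Whether a given advice string is
locally consistent (the number claimed for `u` is the sum of the numbers claimed for `u0` and `u1`,
and it is right for full certificates) is a `coNP` question, and local consistency implies
correctness. So the number of certificates is given by an existential quantifier followed by a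
universal one, and both can be removed because `P = NP`.
-/

set_option autoImplicit false

namespace Pool.Agent.Results.MP_4ed1f9_lc.PredictionLaw

open Pool.Agent.NPC Pool.Agent.NPC.Cnt Pool.Agent.W901.AT Pool.Agent.W901.NU

theorem result (δ ε : ℝ) :
    (0 < δ → δ ≤ 1 / 2 → 0 < ε → List.TFAE
      [∀ f : List Bool → ℕ, SharpP f → FP f,
        ∀ L : Set (List Bool), InPPclass L → InP L,
        ∃ A : Set (List Bool), PPHard A ∧ Predictable δ ε A,
        ∀ A : Set (List Bool), InPPclass A → FullyPredictable δ A]) ∧
    (δ ≤ 0 → ∀ A : Set (List Bool), FullyPredictable δ A) :=
  pp_law δ ε

end Pool.Agent.Results.MP_4ed1f9_lc.PredictionLaw
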