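import Pool.Agent.W933.DD.Form

set_option autoImplicit false

/-!
Every formula with decomposable conjunctions, deterministic disjunctions and arbitrarily many
negations which computes the monotone 5-CNF `Phi4` with `n = 4 M` has exponential size.
-/

namespace Pool.Agent.Results.MP_4ed1f9_lc.TreeNegation

open Pool.Agent.W933.DD

theorem result (M : ℕ) (hM : 1 ≤ M) (F : Fml (4 * M) ((Fin 4 → Fin (4 * M)) → Bool)) (hF : F.Ok)
    (h : ∀ (x : Fin (4 * M) → Bool) (w : (Fin 4 → Fin (4 * M)) → Bool),
      F.eval x w = Phi4 (4 * M) x w) :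
    225 ^ M ≤ F.size ^ 2 * ((4 * M + 1) * 217 ^ M) :=
  formula_bound hM F hF h

end Pool.Agent.Results.MP_4ed1f9_lc.TreeNegation
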