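import Pool.Agent.W933.DD.Arith

set_option autoImplicit false

/-!
A real arithmetic circuit, multilinear in the variables `x`, which computes the monotone 5-CNF
`Phi4` on Boolean inputs has exponential size or exponential cancellation.
-/

namespace Pool.Agent.Results.MP_4ed1f9_lc.ZCancellationBound

open Pool.Agent.W933.DD

theorem result (M s : ℕ) (hM : 1 ≤ M) (C : ACirc (4 * M) s ((Fin 4 → Fin (4 * M)) → Bool))
    (out : Fin s) (B : ℝ)
    (hval : ∀ (x : Fin (4 * M) → Bool) (w : (Fin 4 → Fin (4 * M)) → Bool),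
      C.val out x w = if Phi4 (4 * M) x w = true then 1 else 0)
    (habs : ∀ (x : Fin (4 * M) → Bool) (w : (Fin 4 → Fin (4 * M)) → Bool),
      C.abs out x w ≤ B) :
    (225 : ℝ) ^ M ≤ 4 * (s * B) ^ 2 * ((4 * M + 1) * 217 ^ M) := by
  apply arith_bound hM C out om B _ (fun σ x => habs x (om σ))
  intro σ x
  rw [hval, ← bi_tgt (phi_om σ x)]
  unfold bi
  split <;> simp

end Pool.Agent.Results.MP_4ed1f9_lc.ZCancellationBound
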