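import Pool.Agent.W933.DD.Main

set_option autoImplicit false

/-!
Every circuit with decomposable conjunctions, deterministic disjunctions and negations which
computes the monotone 5-CNF `Phi4` with `n = 4 M` and whose paths carry at most `κ` wide negations
has exponential size.
-/

namespace Pool.Agent.Results.MP_4ed1f9_lc.ZNegationDepth

open Pool.Agent.W933.DD

theorem result (M s : ℕ) (hM : 1 ≤ M) (C : Circ (4 * M) s ((Fin 4 → Fin (4 * M)) → Bool))
    (d : Fin s → ℕ) (hd : C.NegDepth d) (out : Fin s)
    (h : ∀ (x : Fin (4 * M) → Bool) (w : (Fin 4 → Fin (4 * M)) → Bool),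
      C.val out x w = Phi4 (4 * M) x w) :
    225 ^ M ≤ 4 * (s * ∑ j ∈ Finset.range (d out + 1), C.nots.card.choose j) ^ 2 *
      ((4 * M + 1) * 217 ^ M) :=
  circuit_bound hM C d hd out h

end Pool.Agent.Results.MP_4ed1f9_lc.ZNegationDepth
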